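import Pool.Agent.helper13.RF.SpecU
import Pool.Agent.helper85.RF.TYP

set_option autoImplicit false

/-!
# RF (MP_16912e_nt), stage 2, block B', row UZB: equal valuations
-/

namespace Pool.Agent.RF

open NumberField

theorem UZB_le (F : Type) [Field F] [NumberField F] (P : Ideal (𝓞 F)) (hP : P.IsPrime) (hP0 : P ≠ ⊥)
    (x : 𝓞 F) (hx : x ≠ 0) (m : ℕ) : m ≤ vv P x ↔ x ∈ P ^ m := by
  classical
  have hs : Ideal.span {x} ≠ (0 : Ideal (𝓞 F)) := by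
    rw [Ideal.zero_eq_bot, Ne, Ideal.span_singleton_eq_bot]
    exact hx
  have hirr : Irreducible P := (Ideal.prime_of_isPrime hP0 hP).irreducible
  have hnf : UniqueFactorizationMonoid.normalizedFactors (P ^ m) = Multiset.replicate m P := by
    rw [UniqueFactorizationMonoid.normalizedFactors_pow, UniqueFactorizationMonoid.normalizedFactors_irreducible hirr,
      normalize_eq, Multiset.nsmul_singleton]
  have hPm : P ^ m ≠ 0 := pow_ne_zero m hP0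
  have h1 : x ∈ P ^ m ↔ P ^ m ∣ Ideal.span {x} := by
    rw [Ideal.dvd_span_singleton]
  rw [h1, UniqueFactorizationMonoid.dvd_iff_normalizedFactors_le_normalizedFactors hPm hs, hnf,
    ← Multiset.le_count_iff_replicate_le]
  unfold vv
  constructor
  · intro h
    exact le_of_le_of_eq h (by congr)
  · intro h
    exact le_of_le_of_eq h (by congr)

theorem UZB_pow (F : Type) [Field F] [NumberField F] (s : 𝓞 F ≃+* 𝓞 F) (P : Ideal (𝓞 F)) (m : ℕ) :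
    (P.comap s) ^ m = (P ^ m).comap s := by
  have h : ∀ I : Ideal (𝓞 F), I.comap s = I.map s.symm := by
    intro I
    exact (Ideal.map_symm s).symm
  rw [h, h, Ideal.map_pow]

theorem UZB_comap (F : Type) [Field F] [NumberField F] (s : 𝓞 F ≃+* 𝓞 F) (P : Ideal (𝓞 F)) (hP : P.IsPrime) (hP0 : P ≠ ⊥) :
    (P.comap s).IsPrime ∧ P.comap s ≠ ⊥ ∧ ∀ x : 𝓞 F, x ≠ 0 → vv (P.comap s) x = vv P (s x) := by
  have h1 : (P.comap s).IsPrime := Ideal.comap_isPrime s P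
  have h2 : P.comap s ≠ ⊥ := by
    intro h
    apply hP0
    rw [eq_bot_iff]
    intro x hx
    have h3 : s.symm x ∈ P.comap s := by
      rw [Ideal.mem_comap, RingEquiv.apply_symm_apply]
      exact hx
    rw [h, Ideal.mem_bot] at h3
    rw [Ideal.mem_bot]
    exact (map_eq_zero_iff s.symm s.symm.injective).1 h3
  refine ⟨h1, h2, fun x hx => ?_⟩
  have hsx : s x ≠ 0 := fun h => hx ((map_eq_zero_iff s s.injective).1 h)
  have h4 : ∀ m : ℕ, m ≤ vv (P.comap s) x ↔ m ≤ vv P (s x) := by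
    intro m
    rw [UZB_le F _ h1 h2 x hx, UZB_le F P hP hP0 (s x) hsx, UZB_pow, Ideal.mem_comap]
  exact le_antisymm ((h4 _).1 le_rfl) ((h4 _).2 le_rfl)

/-- the exact exponent at a prime element -/
theorem UZB_exact [IsDomain OO] [IsPrincipalIdealRing OO] (π : OO) (hπ : Prime π) (x : OO) (hx : x ≠ 0) :
    ∃ m : ℕ, π ^ m ∣ x ∧ ¬ π ^ (m + 1) ∣ x := by
  have hfin : FiniteMultiplicity π x := FiniteMultiplicity.of_prime_left hπ hx
  exact ⟨multiplicity π x, pow_multiplicity_dvd π x, hfin.not_pow_dvd_of_multiplicity_lt (Nat.lt_succ_self _)⟩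

/-- a prime element whose prime ideal does not contain 5 divides a squarefree integer at most once -/
theorem UZB_sq [IsDomain OO] (hYPL : YPL_stmt) (D₀ : ℤ) (F : Type) [Field F] [NumberField F] (C : Ctx D₀ F) (P : Ideal (𝓞 F)) (hP : P.IsPrime)
    (h5 : (5 : 𝓞 F) ∉ P) (hsq : Squarefree D₀) (π : OO) (hπ : Prime π) (hPπ : ∀ x : OO, C.ι x ∈ P ↔ π ∣ x) :
    ¬ π ^ 2 ∣ (D₀ : OO) := by
  intro h
  have hD0 : D₀ ≠ 0 := hsq.ne_zero
  have h1 : π ∣ (D₀ : OO) := (dvd_pow_self π two_ne_zero).trans h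
  have h2 : ((D₀ : ℤ) : 𝓞 F) ∈ P := by
    have := (hPπ _).2 h1
    rwa [map_intCast] at this
  have h3 : ((D₀.natAbs : ℕ) : 𝓞 F) ∈ P := by
    rcases Int.natAbs_eq D₀ with h4 | h4
    · rw [h4] at h2
      simpa using h2
    · rw [h4] at h2
      have h5 : -((((D₀.natAbs : ℕ) : ℤ)) : 𝓞 F) ∈ P := by
        simpa using h2
      have h6 := P.neg_mem h5
      simpa using h6
  obtain ⟨l, hl, hld, hlP⟩ := TYP_l F P hP D₀.natAbs (Int.natAbs_pos.2 hD0) h3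
  have hl5 : l ≠ 5 := by
    rintro rfl
    exact h5 (by exact_mod_cast hlP)
  have hπl : π ∣ (l : OO) := by
    apply (hPπ _).1
    rwa [map_natCast]
  obtain ⟨S, -, hS1, hS2, -⟩ := hYPL l hl hl5
  obtain ⟨π₁, hπ₁, hass⟩ := hS2 π hπ hπl
  obtain ⟨-, -, h7, h8⟩ := hS1 π₁ hπ₁
  obtain ⟨D₁, hD₁⟩ := Int.natCast_dvd.2 hld
  have h9 : ¬ π ∣ (D₁ : OO) := by
    intro h10
    have h11 : (l : ℤ) ∣ D₁ := h8 D₁ (hass.symm.dvd.trans h10)
    have h12 : (l : ℤ) * l ∣ D₀ := by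
      rw [hD₁]
      exact mul_dvd_mul_left _ h11
    have h13 := hsq _ h12
    rw [Int.isUnit_iff] at h13
    have := hl.two_le
    omega
  have h14 : (D₀ : OO) = (l : OO) * (D₁ : OO) := by
    rw [hD₁]
    push_cast
    ring
  rw [h14] at h
  have h15 : π ^ 2 ∣ (l : OO) := hπ.pow_dvd_of_dvd_mul_right 2 h9 h
  exact h7 ((hass.symm.pow_pow).dvd.trans h15)

theorem UZB_ar1 (c0 c1 c2 c3 x0 x1 x2 x3 y0 y1 d0 d1 d2 d3 w0 w1 w2 w3 v0 v1 kp kp' kq kq' : ℕ)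
    (_u1 : c0 + c2 = 5 * y0) (_u2 : c1 + c3 = 5 * y1) (u3 : 5 * x0 = 2 * c2 + c1) (u4 : 5 * x1 = 2 * c3 + c2)
    (u5 : 5 * x2 = 2 * c0 + c3) (u6 : 5 * x3 = 2 * c1 + c0)
    (_t1 : d0 + d2 = 5 * v0) (_t2 : d1 + d3 = 5 * v1) (t3 : 5 * w0 = 2 * d2 + d1) (t4 : 5 * w1 = 2 * d3 + d2)
    (t5 : 5 * w2 = 2 * d0 + d3) (t6 : 5 * w3 = 2 * d1 + d0)
    (r0 : kq + x0 = kp + w0) (r1 : kq' + x1 = kp' + w1) (r2 : kq + x2 = kp + w2) (r3 : kq' + x3 = kp' + w3) :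
    (c0 : ℤ) - d0 = (c2 : ℤ) - d2 ∧ (c1 : ℤ) - d1 = (c3 : ℤ) - d3 ∧
    (kp : ℤ) * 5 - 5 * (kq : ℤ) = 2 * (c2 : ℤ) - 2 * (d2 : ℤ) + ((c1 : ℤ) - (d1 : ℤ)) := by
  omega

theorem UZB_ar2 (c0 c2 d0 d2 G : ℕ) (h : (c0 : ℤ) - d0 = (c2 : ℤ) - d2) (m1 : 1 ≤ G) (m2 : 2 * min c0 c2 ≤ 15 * G)
    (s1 : min c0 (14 * G) = min d0 (14 * G)) (s2 : min c2 (14 * G) = min d2 (14 * G)) : c2 = d2 := by
  omega

theorem UZB_ar3 (c0 c2 d0 d2 : ℕ) (h : (c0 : ℤ) - d0 = (c2 : ℤ) - d2) (n1 : min c0 c2 = 0) (n2 : min d0 d2 = 0) : c2 = d2 := by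
  omega

theorem UZB_ar4 (c0 c2 d0 d2 y0 v0 mp mq mz e vD : ℕ) (h : (c0 : ℤ) - d0 = (c2 : ℤ) - d2) (u1 : c0 + c2 = 5 * y0)
    (t1 : d0 + d2 = 5 * v0) (y1 : y0 = mp * e) (y2 : v0 = mq * e) (y6 : mp + mq = mz + mz) (he : 1 ≤ e) (y7 : vD ≤ e)
    (n1 : min c0 c2 = 0 ∨ (c0 = c2 ∧ y0 ≤ vD)) (n2 : min d0 d2 = 0 ∨ (d0 = d2 ∧ v0 ≤ vD)) : c2 = d2 := by
  have z : ∀ m y : ℕ, y = m * e → y ≤ vD → m ≤ 1 := by
    intro m y hm hy
    have : m * e ≤ 1 * e := by rw [← hm, one_mul]; exact hy.trans y7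
    exact Nat.le_of_mul_le_mul_right this (by omega)
  have w : ∀ m y : ℕ, y = m * e → y = 0 → m = 0 := by
    intro m y hm hy
    rw [hy] at hm
    rcases Nat.mul_eq_zero.1 hm.symm with h | h
    · exact h
    · omega
  have w' : ∀ m y : ℕ, y = m * e → m = 0 → y = 0 := by
    intro m y hm hy
    rw [hm, hy, zero_mul]
  rcases n1 with n1 | ⟨n1, n1'⟩
  · rcases n2 with n2 | ⟨n2, n2'⟩
    · exact UZB_ar3 c0 c2 d0 d2 h n1 n2
    · have c1 : y0 = 0 := by clear y1 y2; omega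
      have c2' : mp = 0 := w mp y0 y1 c1
      have c3 := z mq v0 y2 n2'
      have c4 : mq = 0 := by clear y1 y2; omega
      have c5 : v0 = 0 := w' mq v0 y2 c4
      clear y1 y2
      omega
  · rcases n2 with n2 | ⟨n2, n2'⟩
    · have c1 : v0 = 0 := by clear y1 y2; omega
      have c2' : mq = 0 := w mq v0 y2 c1
      have c3 := z mp y0 y1 n1'
      have c4 : mp = 0 := by clear y1 y2; omega
      have c5 : y0 = 0 := w' mp y0 y1 c4
      clear y1 y2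
      omega
    · have c1 := z mp y0 y1 n1'
      have c3 := z mq v0 y2 n2'
      have c4 : mp = mq := by clear y1 y2; omega
      have c5 : y0 = v0 := by rw [y1, y2, c4]
      clear y1 y2
      omega

theorem UZB_claim (hWEU : WEU_stmt) (h1 : UVR_stmt) (h2 : UMF_stmt) (h3 : ULN_stmt) (h4 : UPI_stmt) (h5 : UUE_stmt)
    (h6 : VVM_stmt) (h8 : YPL_stmt) (D₀ : ℤ) (F : Type) [Field F] [NumberField F] (C : Ctx D₀ F) (p q : Pt) (f : ℕ)
    (hsq : Squarefree D₀) (hp : IsPt2 p) (hq : IsPt2 q) (hpD : p.D = D₀ * (f : ℤ) ^ 2) (hqD : q.D = D₀ * (f : ℤ) ^ 2)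
    (hS : SameV C f p q) (he : C.ι (25 * q.k) * th C f p = C.ι (25 * p.k) * th C f q) (hz : ∃ z₀ : OO, p.n * q.n = z₀ ^ 2)
    (P : Ideal (𝓞 F)) (hP : P.IsPrime) (hP0 : P ≠ ⊥) :
    vv P (uu C f p) = vv P (uu C f q) ∧
    (vv P (C.ι p.k) : ℤ) * 5 - 5 * (vv P (C.ι q.k) : ℤ) =
      2 * (vv P (uu C f p) : ℤ) - 2 * (vv P (uu C f q) : ℤ) + ((vv P (C.σ (C.σ (C.σ (uu C f p)))) : ℤ) - (vv P (C.σ (C.σ (C.σ (uu C f q)))) : ℤ)) ∧
    (vv P (C.σ (C.σ (C.σ (uu C f p)))) : ℤ) - (vv P (C.σ (C.σ (C.σ (uu C f q)))) : ℤ) = (vv P (C.σ (uu C f p)) : ℤ) - (vv P (C.σ (uu C f q)) : ℤ) := by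
  have hd : IsDomain OO := hWEU.1
  have hpid : IsPrincipalIdealRing OO := hWEU.2
  obtain ⟨-, -, -, -, -, -, -, -, -, -, -, hf0, hθp, hup, hnp, hnp', h2kp, hσ4, hιinj⟩ := h5 D₀ F C p f hp hpD
  obtain ⟨-, -, -, -, -, -, -, -, -, -, -, -, hθq, huq, hnq, hnq', h2kq, -, -⟩ := h5 D₀ F C q f hq hqD
  obtain ⟨a1, a2, a3⟩ := h6 F P hP hP0
  have hσ0 : ∀ x : 𝓞 F, x ≠ 0 → C.σ x ≠ 0 := fun x hx h => hx ((map_eq_zero_iff C.σ C.σ.injective).1 h)
  -- nonzero facts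
  have e25 : C.ι (2 * (25 * p.k)) = C.ι 2 * (C.ι 25 * C.ι p.k) := by rw [map_mul, map_mul]
  have e25q : C.ι (2 * (25 * q.k)) = C.ι 2 * (C.ι 25 * C.ι q.k) := by rw [map_mul, map_mul]
  have h25 : C.ι 25 ≠ 0 := fun h => h2kp (by rw [e25, h]; ring)
  have hkp : C.ι p.k ≠ 0 := fun h => h2kp (by rw [e25, h]; ring)
  have hkq : C.ι q.k ≠ 0 := fun h => h2kq (by rw [e25q, h]; ring)
  have hst : ∀ z : OO, C.σ (C.ι (25 * z)) = C.ι 25 * C.ι (star z) := by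
    intro z
    rw [C.σι, star_mul', map_mul]
    have : star (25 : OO) = 25 := star_ofNat 25
    rw [this]
  have hιk : ∀ z : OO, C.ι (25 * z) = C.ι 25 * C.ι z := fun z => map_mul _ _ _
  have hkp' : C.ι (star p.k) ≠ 0 := by
    rw [← C.σι]
    exact hσ0 _ hkp
  have hkq' : C.ι (star q.k) ≠ 0 := by
    rw [← C.σι]
    exact hσ0 _ hkq
  -- the four relations
  have r0 : vv P (C.ι q.k) + vv P (th C f p) = vv P (C.ι p.k) + vv P (th C f q) := by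
    have e0 : C.ι 25 * (C.ι q.k * th C f p) = C.ι 25 * (C.ι p.k * th C f q) := by
      rw [← mul_assoc, ← mul_assoc, ← hιk, ← hιk]
      exact he
    have e1 := mul_left_cancel₀ h25 e0
    rw [← a1 _ _ hkq hθp, ← a1 _ _ hkp hθq, e1]
  have es1 : C.ι (star q.k) * C.σ (th C f p) = C.ι (star p.k) * C.σ (th C f q) := by
    have e0 := congrArg C.σ he
    rw [map_mul C.σ, map_mul C.σ, hst, hst, mul_assoc, mul_assoc] at e0
    exact mul_left_cancel₀ h25 e0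
  have r1 : vv P (C.ι (star q.k)) + vv P (C.σ (th C f p)) = vv P (C.ι (star p.k)) + vv P (C.σ (th C f q)) := by
    rw [← a1 _ _ hkq' (hσ0 _ hθp), ← a1 _ _ hkp' (hσ0 _ hθq), es1]
  have es2 : C.ι q.k * C.σ (C.σ (th C f p)) = C.ι p.k * C.σ (C.σ (th C f q)) := by
    have e0 := congrArg C.σ es1
    rw [map_mul C.σ, map_mul C.σ, C.σι, C.σι, star_star, star_star] at e0
    exact e0
  have r2 : vv P (C.ι q.k) + vv P (C.σ (C.σ (th C f p))) = vv P (C.ι p.k) + vv P (C.σ (C.σ (th C f q))) := by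
    rw [← a1 _ _ hkq (hσ0 _ (hσ0 _ hθp)), ← a1 _ _ hkp (hσ0 _ (hσ0 _ hθq)), es2]
  have es3 : C.ι (star q.k) * C.σ (C.σ (C.σ (th C f p))) = C.ι (star p.k) * C.σ (C.σ (C.σ (th C f q))) := by
    have e0 := congrArg C.σ es2
    rw [map_mul C.σ, map_mul C.σ, C.σι, C.σι] at e0
    exact e0
  have r3 : vv P (C.ι (star q.k)) + vv P (C.σ (C.σ (C.σ (th C f p)))) = vv P (C.ι (star p.k)) + vv P (C.σ (C.σ (C.σ (th C f q)))) := by
    rw [← a1 _ _ hkq' (hσ0 _ (hσ0 _ (hσ0 _ hθp))), ← a1 _ _ hkp' (hσ0 _ (hσ0 _ (hσ0 _ hθq))), es3]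
  -- UVR
  obtain ⟨u1, u2, u3, u4, u5, u6, -, -, -⟩ := h1 D₀ F C p f hp hpD P hP hP0 _ _ _ _ _ _ _ _ _ _ rfl rfl rfl rfl rfl rfl rfl rfl rfl rfl
  obtain ⟨t1, t2, t3, t4, t5, t6, -, -, -⟩ := h1 D₀ F C q f hq hqD P hP hP0 _ _ _ _ _ _ _ _ _ _ rfl rfl rfl rfl rfl rfl rfl rfl rfl rfl
  -- the differences
  obtain ⟨d02, d13, dk⟩ := UZB_ar1 _ _ _ _ _ _ _ _ _ _ _ _ _ _ _ _ _ _ _ _ _ _ _ _ u1 u2 u3 u4 u5 u6 t1 t2 t3 t4 t5 t6 r0 r1 r2 r3
  have hkey : vv P (uu C f p) = vv P (uu C f q) := by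
    by_cases hfP : (f : 𝓞 F) ∈ P
    · -- the primes above f
      obtain ⟨m1, m2⟩ := h2 D₀ F C p f hsq hp hpD P hP hP0 hfP
      obtain ⟨-, s1⟩ := hS P hP hfP
      obtain ⟨b1, b2, b3⟩ := UZB_comap F (C.σ.trans C.σ) P hP hP0
      have hfP' : (f : 𝓞 F) ∈ P.comap (C.σ.trans C.σ) := by
        rw [Ideal.mem_comap, map_natCast]
        exact hfP
      obtain ⟨-, s2⟩ := hS _ b1 hfP'
      rw [b3 _ (hσ0 _ (hσ0 _ hup)), b3 _ (hσ0 _ (hσ0 _ huq)), b3 _ hf0, map_natCast] at s2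
      have g1 : (C.σ.trans C.σ) (C.σ (C.σ (uu C f p))) = uu C f p := hσ4 _
      have g2 : (C.σ.trans C.σ) (C.σ (C.σ (uu C f q))) = uu C f q := hσ4 _
      rw [g1, g2] at s2
      exact UZB_ar2 _ _ _ _ _ d02 m1 m2 s1 s2
    · obtain ⟨-, n1⟩ := h3 D₀ F C p f hsq hp hpD P hP hP0 hfP
      obtain ⟨-, n2⟩ := h3 D₀ F C q f hsq hq hqD P hP hP0 hfP
      by_cases h5P : (5 : 𝓞 F) ∈ P
      · have n1' := n1.resolve_right (fun h => h.1 h5P)
        have n2' := n2.resolve_right (fun h => h.1 h5P)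
        exact UZB_ar3 _ _ _ _ d02 n1' n2'
      · obtain ⟨π, hπ, e1, hmem, hex⟩ := h4 D₀ F C P hP hP0
        have hnn : p.n ≠ 0 := fun h => hnp (by rw [h, map_zero])
        have hnn' : q.n ≠ 0 := fun h => hnq (by rw [h, map_zero])
        have hD0 : (D₀ : OO) ≠ 0 := by
          intro h
          apply hsq.ne_zero
          have := congrArg QuadraticAlgebra.re h
          simpa using this
        obtain ⟨mp, k1, k2⟩ := UZB_exact π hπ p.n hnn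
        obtain ⟨mq, k3, k4⟩ := UZB_exact π hπ q.n hnn'
        obtain ⟨md, k5, k6⟩ := UZB_exact π hπ (D₀ : OO) hD0
        have y1 := hex p.n mp k1 k2
        have y2 := hex q.n mq k3 k4
        have y3 := hex (D₀ : OO) md k5 k6
        rw [map_intCast] at y3
        have hmd : md ≤ 1 := by
          by_contra hcon
          push Not at hcon
          exact UZB_sq h8 D₀ F C P hP h5P hsq π hπ hmem ((pow_dvd_pow π hcon).trans k5)
        obtain ⟨z₀, hz₀⟩ := hz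
        have hz0 : z₀ ≠ 0 := by
          rintro rfl
          have : p.n * q.n = 0 := by rw [hz₀]; ring
          rcases mul_eq_zero.1 this with h | h
          · exact hnn h
          · exact hnn' h
        obtain ⟨mz, k7, k8⟩ := UZB_exact π hπ z₀ hz0
        have y4 := hex z₀ mz k7 k8
        have hιz : C.ι z₀ ≠ 0 := fun h => hz0 (hιinj _ _ (by rw [h, map_zero]))
        have y5 : vv P (C.ι p.n) + vv P (C.ι q.n) = vv P (C.ι z₀) + vv P (C.ι z₀) := by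
          rw [← a1 _ _ hnp hnq, ← a1 _ _ hιz hιz, ← map_mul, hz₀, ← map_mul, sq]
        have y6 : mp + mq = mz + mz := by
          have : (mp + mq) * vv P (C.ι π) = (mz + mz) * vv P (C.ι π) := by
            rw [add_mul, add_mul, ← y1, ← y2, ← y4]
            exact y5
          exact Nat.eq_of_mul_eq_mul_right e1 this
        have y7 : vv P ((D₀ : ℤ) : 𝓞 F) ≤ vv P (C.ι π) := by
          rw [y3]
          exact (Nat.mul_le_mul_right _ hmd).trans (one_mul _).le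
        exact UZB_ar4 _ _ _ _ _ _ mp mq mz (vv P (C.ι π)) _ d02 u1 t1 y1 y2 y6 e1 y7 (n1.imp id (fun h => h.2)) (n2.imp id (fun h => h.2))
  exact ⟨hkey, dk, d13⟩

/-- **Row UZB** -/
theorem UZB (hWEU : WEU_stmt) (h1 : UVR_stmt) (h2 : UMF_stmt) (h3 : ULN_stmt) (h4 : UPI_stmt) (h5 : UUE_stmt)
    (h6 : VVM_stmt) (h8 : YPL_stmt) : UZB_stmt := by
  intro D₀ F _ _ C p q f hsq hp hq hpD hqD hS he hz P hP hP0
  obtain ⟨-, b2, b3⟩ := UZB_claim hWEU h1 h2 h3 h4 h5 h6 h8 D₀ F C p q f hsq hp hq hpD hqD hS he hz P hP hP0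
  obtain ⟨b1, -, -⟩ := UZB_claim hWEU h1 h2 h3 h4 h5 h6 h8 D₀ F C p q f hsq hp hq hpD hqD hS he hz P hP hP0
  obtain ⟨c1, c2, c3⟩ := UZB_comap F C.σ P hP hP0
  obtain ⟨d1, -, -⟩ := UZB_claim hWEU h1 h2 h3 h4 h5 h6 h8 D₀ F C p q f hsq hp hq hpD hqD hS he hz _ c1 c2
  have hup : uu C f p ≠ 0 := (h5 D₀ F C p f hp hpD).2.2.2.2.2.2.2.2.2.2.2.2.2.1
  have huq : uu C f q ≠ 0 := (h5 D₀ F C q f hq hqD).2.2.2.2.2.2.2.2.2.2.2.2.2.1
  rw [c3 _ hup, c3 _ huq] at d1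
  omega

end Pool.Agent.RF
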