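import Pool.Agent.helper13.RF.Spec1

/-!
# Row rf:CMP (MP_16912e_nt): the field generated by the fifth roots of unity over a real quadratic field
-/

set_option autoImplicit false

open NumberField
open scoped nonZeroDivisors

namespace Pool.Agent.RF

open Polynomial in
/-- a quadratic extension, with its universal property -/
theorem CMP_quad (F : Type) [Field F] (a : F) (ha : ∀ b : F, b ^ 2 ≠ a) :
    ∃ (N : Type) (_ : Field N) (_ : Algebra F N) (x : N), x ^ 2 = algebraMap F N a ∧ Module.finrank F N = 2 ∧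
      (∀ y : N, ∃ u v : F, y = algebraMap F N u + algebraMap F N v * x) ∧
      ∀ (R : Type) [CommRing R] (φ : F →+* R) (y : R), y ^ 2 = φ a → ∃ ψ : N →+* R, (∀ u, ψ (algebraMap F N u) = φ u) ∧ ψ x = y := by
  have hf : Irreducible (X ^ 2 - C a : F[X]) := X_pow_sub_C_irreducible_of_prime Nat.prime_two ha
  haveI : Fact (Irreducible (X ^ 2 - C a : F[X])) := ⟨hf⟩
  have hdeg : (X ^ 2 - C a : F[X]).natDegree = 2 := natDegree_X_pow_sub_C
  have hmon : (X ^ 2 - C a : F[X]).Monic := monic_X_pow_sub_C a two_ne_zero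
  refine ⟨AdjoinRoot (X ^ 2 - C a : F[X]), inferInstance, inferInstance, AdjoinRoot.root _, ?_, ?_, ?_, ?_⟩
  · have h1 := AdjoinRoot.eval₂_root (X ^ 2 - C a : F[X])
    rw [eval₂_sub, eval₂_X_pow, eval₂_C, sub_eq_zero] at h1
    rw [h1]
    rfl
  · rw [(AdjoinRoot.powerBasis hf.ne_zero).finrank, AdjoinRoot.powerBasis_dim hf.ne_zero, hdeg]
  · intro y
    obtain ⟨g, rfl⟩ := AdjoinRoot.mk_surjective y
    have h1 : AdjoinRoot.mk (X ^ 2 - C a : F[X]) g = AdjoinRoot.mk (X ^ 2 - C a : F[X]) (g %ₘ (X ^ 2 - C a)) := by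
      rw [AdjoinRoot.mk_eq_mk]
      exact ⟨g /ₘ (X ^ 2 - C a), by
        have h0 := modByMonic_add_div g (X ^ 2 - C a : F[X])
        linear_combination -h0⟩
    have h2 : (g %ₘ (X ^ 2 - C a)).natDegree ≤ 1 := by
      have h3 := natDegree_modByMonic_lt g hmon (by
        intro h
        rw [h, natDegree_one] at hdeg
        omega)
      omega
    rw [h1, eq_X_add_C_of_natDegree_le_one h2]
    refine ⟨(g %ₘ (X ^ 2 - C a)).coeff 0, (g %ₘ (X ^ 2 - C a)).coeff 1, ?_⟩
    rw [map_add, map_mul, AdjoinRoot.mk_X, AdjoinRoot.mk_C, AdjoinRoot.mk_C, add_comm]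
    simp [AdjoinRoot.algebraMap_eq]
  · intro R _ φ y hy
    refine ⟨AdjoinRoot.lift φ y ?_, fun u => ?_, ?_⟩
    · rw [eval₂_sub, eval₂_X_pow, eval₂_C, hy, sub_self]
    · exact AdjoinRoot.lift_of _
    · exact AdjoinRoot.lift_root _

theorem CMP_nsq (D : ℤ) (h1 : 1 < D) (hsf : Squarefree D) : ∀ b : ℚ, b ^ 2 ≠ (D : ℚ) := by
  intro b hb
  have h2 : IsSquare (D : ℚ) := ⟨b, by rw [← hb, sq]⟩
  rw [Rat.isSquare_intCast_iff] at h2
  obtain ⟨n, hn⟩ := h2
  have h3 : IsUnit n := hsf n ⟨1, by rw [hn, mul_one]⟩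
  rcases Int.isUnit_iff.1 h3 with h | h <;> rw [h] at hn <;> omega

theorem CMP_n5 (D : ℤ) (h1 : 1 < D) (hsf : Squarefree D) (h5 : D ≠ 5) : ∀ b : ℚ, 5 * b ^ 2 ≠ (D : ℚ) := by
  intro b hb
  have h2 : IsSquare ((5 * D : ℤ) : ℚ) := ⟨5 * b, by
    push_cast
    rw [← hb]
    ring⟩
  rw [Rat.isSquare_intCast_iff] at h2
  obtain ⟨n, hn⟩ := h2
  have h3 : (5 : ℤ) ∣ n := by
    have h4 : (5 : ℤ) ∣ n * n := ⟨D, hn.symm⟩
    rcases (Int.prime_iff_natAbs_prime.2 (by norm_num : Nat.Prime (Int.natAbs 5))).dvd_or_dvd h4 with h | h <;> exact h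
  obtain ⟨m, rfl⟩ := h3
  have h4 : D = 5 * (m * m) := by
    have : 5 * D = 5 * (5 * (m * m)) := by
      rw [hn]
      ring
    omega
  have h6 : IsUnit m := hsf m ⟨5, by rw [h4]; ring⟩
  rcases Int.isUnit_iff.1 h6 with h | h <;> rw [h] at h4 <;> omega

theorem CMP_two {F : Type} [Field F] [CharZero F] (s : F ≃+* F) (r : F) (hr : r ^ 2 = 5) (sr : s r = -r) (a b : ℚ)
    (h : (a : F) + b * r = 0) : a = 0 ∧ b = 0 := by
  have h1 : (a : F) - b * r = 0 := by
    have h2 := congrArg s h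
    rw [map_add, map_mul, map_ratCast, map_ratCast, sr, map_zero] at h2
    linear_combination h2
  have h3 : (a : F) = 0 := by linear_combination (1 / 2 : F) * h + (1 / 2 : F) * h1
  have hr0 : r ≠ 0 := by
    intro h0
    rw [h0] at hr
    norm_num at hr
  have h4 : (b : F) * r = 0 := by linear_combination h - h3
  have h5 : (b : F) = 0 := (mul_eq_zero.1 h4).resolve_right hr0
  exact ⟨by exact_mod_cast h3, by exact_mod_cast h5⟩

theorem CMP_r {D : ℤ} {F : Type} [Field F] [NumberField F] {s : F ≃+* F} {r w : F} (h : Mir D F s r w) (hD : D ≠ 0) :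
    1 + r ≠ 0 ∧ 1 - r ≠ 0 ∧ r ≠ 0 ∧ w ≠ 0 ∧ s (s w) = -w := by
  have hr := h.r2
  have a1 : 1 + r ≠ 0 := by
    intro h0
    have : r = -1 := by linear_combination h0
    rw [this] at hr
    norm_num at hr
  have a2 : 1 - r ≠ 0 := by
    intro h0
    have : r = 1 := by linear_combination -h0
    rw [this] at hr
    norm_num at hr
  have a3 : r ≠ 0 := by
    intro h0
    rw [h0] at hr
    norm_num at hr
  have a4 : w ≠ 0 := by
    intro h0
    have hw := h.w2
    rw [h0] at hw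
    have hD' : (D : F) ≠ 0 := Int.cast_ne_zero.2 hD
    have : r * ((1 + r) / 2) * (D : F) ≠ 0 := mul_ne_zero (mul_ne_zero a3 (div_ne_zero a1 two_ne_zero)) hD'
    apply this
    have h00 : (0 : F) ^ 2 = 0 := by norm_num
    rw [h00] at hw
    have h01 := neg_eq_zero.1 hw.symm
    exact h01
  refine ⟨a1, a2, a3, a4, ?_⟩
  rw [h.sw, map_mul, h.sw, map_div₀, map_add, map_one, h.sr, map_ofNat]
  have e : (1 + r) * (1 - r) = -4 := by linear_combination -hr
  have a2' : 1 + -r ≠ 0 := by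
    rw [← sub_eq_add_neg]
    exact a2
  field_simp
  linear_combination -hr

theorem CMP_li {D : ℤ} {F : Type} [Field F] [NumberField F] {s : F ≃+* F} {r w : F} (h : Mir D F s r w) (hD : D ≠ 0)
    (a b c e : ℚ) (h0 : (a : F) + b * r + (c + e * r) * w = 0) : a = 0 ∧ b = 0 ∧ c = 0 ∧ e = 0 := by
  obtain ⟨-, -, -, a4, a5⟩ := CMP_r h hD
  have h1 : (a : F) + b * r - (c + e * r) * w = 0 := by
    have h2 := congrArg (fun y => s (s y)) h0
    simp only [map_add, map_mul, map_ratCast, h.sr, map_neg, a5, map_zero] at h2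
    linear_combination h2
  have h3 : (a : F) + b * r = 0 := by linear_combination (1 / 2 : F) * h0 + (1 / 2 : F) * h1
  have h4 : ((c : F) + e * r) * w = 0 := by linear_combination h0 - h3
  have h5 : (c : F) + e * r = 0 := (mul_eq_zero.1 h4).resolve_right a4
  obtain ⟨b1, b2⟩ := CMP_two s r h.r2 h.sr a b h3
  obtain ⟨b3, b4⟩ := CMP_two s r h.r2 h.sr c e h5
  exact ⟨b1, b2, b3, b4⟩

theorem CMP_gen {D : ℤ} {F : Type} [Field F] [NumberField F] {s : F ≃+* F} {r w : F} (h : Mir D F s r w) (hD : D ≠ 0)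
    (d : F) : ∃ a b c e : ℚ, d = a + b * r + (c + e * r) * w := by
  have hli : LinearIndependent ℚ (![1, r, w, r * w] : Fin 4 → F) := by
    rw [Fintype.linearIndependent_iff]
    intro g hg
    rw [Fin.sum_univ_four] at hg
    simp only [Matrix.cons_val_zero, Matrix.cons_val_one, Matrix.cons_val, Rat.smul_def] at hg
    obtain ⟨h1, h2, h3, h4⟩ := CMP_li h hD (g 0) (g 1) (g 2) (g 3) (by linear_combination hg)
    intro i
    fin_cases i
    · exact h1
    · exact h2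
    · exact h3
    · exact h4
  have hsp := hli.span_eq_top_of_card_eq_finrank (by rw [Fintype.card_fin, h.fin])
  have hd : d ∈ Submodule.span ℚ (Set.range (![1, r, w, r * w] : Fin 4 → F)) := by
    rw [hsp]
    exact Submodule.mem_top
  rw [Submodule.mem_span_range_iff_exists_fun] at hd
  obtain ⟨g, hg⟩ := hd
  rw [Fin.sum_univ_four] at hg
  simp only [Matrix.cons_val_zero, Matrix.cons_val_one, Matrix.cons_val, Rat.smul_def] at hg
  exact ⟨g 0, g 1, g 2, g 3, by linear_combination -hg⟩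

theorem CMP_nf {D : ℤ} (h1 : 1 < D) (hsf : Squarefree D) (h5 : D ≠ 5) {F : Type} [Field F] [NumberField F] {s : F ≃+* F} {r w : F}
    (h : Mir D F s r w) : ∀ d : F, d ^ 2 ≠ (D : F) := by
  intro d hd
  have hD : D ≠ 0 := by omega
  obtain ⟨-, -, -, a4, a5⟩ := CMP_r h hD
  obtain ⟨a, b, c, e, hab⟩ := CMP_gen h hD d
  have hs2 : s (s d) = d := by
    have h2 : (s d) ^ 2 = d ^ 2 := by rw [← map_pow, hd, map_intCast]
    rcases sq_eq_sq_iff_eq_or_eq_neg.1 h2 with h3 | h3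
    · rw [h3, h3]
    · rw [h3, map_neg, h3, neg_neg]
  have h6 : ((c : F) + e * r) * w = 0 := by
    rw [hab] at hs2
    simp only [map_add, map_mul, map_ratCast, h.sr, map_neg, a5, neg_neg] at hs2
    linear_combination (-1 / 2 : F) * hs2
  rw [h6, add_zero] at hab
  have h7 : (((a ^ 2 + 5 * b ^ 2 - D : ℚ)) : F) + ((2 * a * b : ℚ) : F) * r = 0 := by
    push_cast
    rw [hab] at hd
    linear_combination hd - (b : F) ^ 2 * h.r2
  obtain ⟨h8, h9⟩ := CMP_two s r h.r2 h.sr _ _ h7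
  have h10 : a = 0 ∨ b = 0 := by
    have : a * b = 0 := by linarith
    exact mul_eq_zero.1 this
  rcases h10 with h | h
  · exact CMP_n5 D h1 hsf h5 b (by rw [h] at h8; linarith)
  · exact CMP_nsq D h1 hsf a (by rw [h] at h8; linarith)

/-- the root of unity -/
theorem CMP_zeta {N : Type} [Field N] [CharZero N] (r w x : N) (D : N) (hr : r ^ 2 = 5) (hD : D ≠ 0) (hx : x ^ 2 = D)
    (hw : w ^ 2 = -(r * ((1 + r) / 2) * D)) :
    IsPrimitiveRoot (((r - 1) / 2 + w / x) / 2) 5 ∧ (((r - 1) / 2 + w / x) / 2) ^ 2 = ((-r - 1) / 2 + w / x * (2 / (1 + r))) / 2 := by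
  have hx0 : x ≠ 0 := by
    intro h0
    apply hD
    rw [← hx, h0]
    norm_num
  have hr1 : 1 + r ≠ 0 := by
    intro h0
    have : r = -1 := by linear_combination h0
    rw [this] at hr
    norm_num at hr
  set η := w / x with hη
  have hη2 : η ^ 2 = -(r + 5) / 2 := by
    rw [hη, div_pow, hw, hx]
    field_simp
    linear_combination -hr
  have hc2 : (r - 1) / 2 = 2 / (1 + r) := by
    field_simp
    linear_combination hr
  set ζ := ((r - 1) / 2 + η) / 2 with hζ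
  have hζ2 : ζ ^ 2 = (r - 1) / 2 * ζ - 1 := by
    rw [hζ]
    linear_combination (1 / 4 : N) * hη2 - (1 / 16 : N) * hr
  have hcc : ((r - 1) / 2) ^ 2 + (r - 1) / 2 = 1 := by linear_combination (1 / 4 : N) * hr
  have h5 : ζ ^ 4 + ζ ^ 3 + ζ ^ 2 + ζ + 1 = 0 := by
    linear_combination (ζ ^ 2 + (1 + (r - 1) / 2) * ζ + 1) * hζ2 + ζ ^ 2 * hcc
  have h6 : ζ ^ 5 = 1 := by linear_combination (ζ - 1) * h5
  have h7 : ζ ≠ 1 := by
    intro h0
    rw [h0] at h5
    norm_num at h5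
  refine ⟨?_, ?_⟩
  · haveI : Fact (Nat.Prime 5) := ⟨by norm_num⟩
    exact IsPrimitiveRoot.iff_orderOf.2 (orderOf_eq_prime h6 h7)
  · rw [hζ2, hζ, ← hc2]
    linear_combination (1 / 8 : N) * hr

theorem CMP : CMP_stmt := by
  intro D hD hsf hD5 F _ _ s r w h K _ _ hK ⟨xK, hxK⟩
  have hD0 : D ≠ 0 := by omega
  have hF := CMP_nf hD hsf hD5 h
  obtain ⟨N, iN, iA, x, hx, hfr, hgen, huniv⟩ := CMP_quad F (D : F) hF
  haveI hchar : CharZero N := charZero_of_injective_algebraMap (algebraMap F N).injective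
  haveI hfin : FiniteDimensional F N := FiniteDimensional.of_finrank_pos (by rw [hfr]; norm_num)
  haveI hfinQ : FiniteDimensional ℚ N := Module.Finite.trans F N
  haveI hNF : NumberField N := ⟨⟩
  obtain ⟨N0, i0, iA0, x0, hx0, hfr0, hgen0, huniv0⟩ := CMP_quad ℚ (D : ℚ) (CMP_nsq D hD hsf)
  haveI hchar0 : CharZero N0 := charZero_of_injective_algebraMap (algebraMap ℚ N0).injective
  obtain ⟨ψ0, hψ0, hψ0x⟩ := huniv0 K (algebraMap ℚ K) xK (by rw [hxK]; simp)
  obtain ⟨ψ1, hψ1, hψ1x⟩ := huniv0 N (algebraMap ℚ N) x (by rw [hx]; simp)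
  have hsurj : Function.Surjective ψ0 := by
    haveI : FiniteDimensional ℚ N0 := FiniteDimensional.of_finrank_pos (by rw [hfr0]; norm_num)
    have hsm : ∀ (c : ℚ) (y : N0), ψ0 (c • y) = c • ψ0 y := by
      intro c y
      rw [Algebra.smul_def, map_mul, hψ0, Algebra.smul_def]
    let L : N0 →ₗ[ℚ] K := { toFun := ψ0, map_add' := map_add ψ0, map_smul' := hsm }
    exact (LinearMap.injective_iff_surjective_of_finrank_eq_finrank (f := L) (by rw [hfr0, hK])).1 ψ0.injective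
  let e0 : N0 ≃+* K := RingEquiv.ofBijective ψ0 ⟨ψ0.injective, hsurj⟩
  let ι : K →+* N := ψ1.comp (e0.symm : K →+* N0)
  letI iK : Algebra K N := ι.toAlgebra
  haveI hfinK : FiniteDimensional K N := Module.Finite.of_restrictScalars_finite ℚ K N
  obtain ⟨τ0, hτ0, hτ0x⟩ := huniv N ((algebraMap F N).comp (s : F →+* F)) x (by rw [hx]; simp)
  have hτK : ∀ k : K, τ0 (algebraMap K N k) = algebraMap K N k := by
    intro k
    obtain ⟨y, rfl⟩ := e0.surjective k
    obtain ⟨u, v, rfl⟩ := hgen0 y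
    have e1 : algebraMap K N (e0 (algebraMap ℚ N0 u + algebraMap ℚ N0 v * x0)) = ψ1 (algebraMap ℚ N0 u + algebraMap ℚ N0 v * x0) := by
      show ψ1 (e0.symm (e0 _)) = _
      rw [RingEquiv.symm_apply_apply]
    rw [e1, map_add, map_mul, hψ1, hψ1, hψ1x, map_add, map_mul, hτ0x]
    simp
  let τA : N →ₐ[K] N := { τ0 with commutes' := hτK }
  let τ : N ≃ₐ[K] N := AlgEquiv.ofBijective τA (Algebra.IsAlgebraic.algHom_bijective τA)
  have hτap : ∀ y, τ y = τ0 y := fun y => rfl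
  -- the degrees
  have hKN : Module.finrank K N = 4 := by
    have h1 := Module.finrank_mul_finrank ℚ K N
    have h2 := Module.finrank_mul_finrank ℚ F N
    rw [h.fin, hfr] at h2
    rw [hK, ← h2] at h1
    omega
  -- the root of unity
  obtain ⟨hζ, hζ2⟩ := CMP_zeta (algebraMap F N r) (algebraMap F N w) x (D : N) (by rw [← map_pow, h.r2]; exact map_ofNat _ 5)
    (Int.cast_ne_zero.2 hD0) (by rw [hx]; simp)
    (by rw [← map_pow, h.w2]; simp only [map_neg, map_mul, map_div₀, map_add, map_one, map_ofNat, map_intCast])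
  set ζ : N := ((algebraMap F N r - 1) / 2 + algebraMap F N w / x) / 2 with hζdef
  have hτζ : τ ζ = ζ ^ 2 := by
    rw [hτap, hζ2, hζdef]
    simp only [map_div₀, map_add, map_sub, map_one, map_ofNat, hτ0, hτ0x, RingHom.comp_apply, RingHom.coe_coe, h.sr, h.sw, map_neg, map_mul]
    ring
  refine ⟨N, iN, hNF, iK, iA, ζ, τ, hζ, hτζ, hKN, hfr, ?_, fun y => by rw [hτap, hτ0]; rfl⟩
  -- Galois
  refine IsGalois.of_card_aut_eq_finrank K N (le_antisymm ?_ ?_)
  · rw [Nat.card_eq_fintype_card]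
    exact AlgEquiv.card_le
  · rw [hKN]
    have h5 : ζ ^ 5 = 1 := hζ.pow_eq_one
    have hτ2 : τ (τ ζ) = ζ ^ 4 := by
      rw [hτζ, map_pow, hτζ, ← pow_mul]
    have hτ3 : τ (τ (τ ζ)) = ζ ^ 3 := by
      rw [hτ2, map_pow, hτζ, ← pow_mul]
      calc ζ ^ (2 * 4) = ζ ^ 5 * ζ ^ 3 := by ring
        _ = ζ ^ 3 := by rw [h5, one_mul]
    let f : Fin 4 → (N ≃ₐ[K] N) := ![1, τ, τ * τ, τ * (τ * τ)]
    have hf : ∀ i : Fin 4, f i ζ = ζ ^ (![1, 2, 4, 3] i : ℕ) := by
      intro i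
      fin_cases i
      · show ζ = ζ ^ 1
        rw [pow_one]
      · exact hτζ
      · exact hτ2
      · exact hτ3
    have hinj : Function.Injective f := by
      intro i j hij
      have h1 : ζ ^ (![1, 2, 4, 3] i : ℕ) = ζ ^ (![1, 2, 4, 3] j : ℕ) := by rw [← hf, ← hf, hij]
      have hlt : ∀ i : Fin 4, (![1, 2, 4, 3] i : ℕ) < 5 := by decide
      have h2 := hζ.pow_inj (hlt i) (hlt j) h1
      have key : ∀ i j : Fin 4, (![1, 2, 4, 3] i : ℕ) = ![1, 2, 4, 3] j → i = j := by decide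
      exact key i j h2
    have h6 := Nat.card_le_card_of_injective f hinj
    rwa [Nat.card_eq_fintype_card, Fintype.card_fin] at h6

end Pool.Agent.RF
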