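import Pool.Agent.helper13.RF.SpecT

/-!
# Row rf:TLA (MP_16912e_nt): bounds for the invariants `A`, `B` at a prime above the content
-/

set_option autoImplicit false

namespace Pool.Agent.RF

open NumberField

theorem TLA (h1 : TLR_stmt) (h2 : TLM_stmt) : TLA_stmt := by
  intro D₀ F _ _ C p f hp hD P hP hP0 hg
  obtain ⟨r1, r2, r3, r4, r5, r6, r7, r8, -, -⟩ := h1 D₀ F C p f hp hD P hP hP0 _ _ _ _ _ _ rfl rfl rfl rfl rfl rfl
  obtain ⟨a0, a1, m, m', e0, e1, ha, hm, hX⟩ := h2 D₀ F C p hp P hP hP0 hg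
  unfold AV BV
  revert r1 r2 r3 r4 r5 r6 r7 r8 e0 e1 hm hX
  generalize vv P (th C f p) = x0
  generalize vv P (C.σ (th C f p)) = x1
  generalize vv P (C.σ (C.σ (th C f p))) = x2
  generalize vv P (C.σ (C.σ (C.σ (th C f p)))) = x3
  generalize vv P (C.ι p.n) = y0
  generalize vv P (C.ι (star p.n)) = y1
  generalize vv P (C.ι (2 * p.X)) = z0
  generalize vv P (C.ι (2 * star p.X)) = z1
  generalize vv P ((ct p : ℕ) : 𝓞 F) = G
  intro r1 r2 r3 r4 r5 r6 r7 r8 e0 e1 hm hX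
  rcases Nat.eq_zero_or_pos (a0 + a1) with h0 | h0
  · omega
  · have hm' := hm h0
    by_cases hc : a0 + m = a1 + m'
    · omega
    · obtain ⟨g1, g2⟩ := hX h0 hc
      omega

end Pool.Agent.RF
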